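import Pool.Agent.X163.CO

/-!
# The Singer conjecture and the Euler characteristic: manifolds with a co-amenable subgroup

Let `M` be a closed aspherical manifold with fundamental group `G`. The cellular chain complex of its
universal covering (for a finite complex homotopy equivalent to `M`) is a finite complex of finitely
generated free `ℂG`-modules `0 → ℂG^(c N) → ... → ℂG^(c 2) → ℂG^(c 1) → 0`, with boundary maps given by
matrices `D p` over the group ring (`ℂG^(c (p + 1))` is in degree `p`, and `c 0 = 0`). Its `ℓ²`-Betti
number in degree `p` is `betti (D (p + 1)) (D p)`, and its Euler characteristic is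
`χ = ∑ (-1)^p c (p + 1)`.

Let `H ≤ G` be a subgroup of infinite index such that the action of `G` on `G/H` is amenable (`H` is
co-amenable; it need not be normal).

Theorem. Suppose that the `ℓ²`-Betti numbers over `H` are finite in all degrees congruent to `e`
modulo `2` (all even degrees, or all odd degrees). Then
(1) the `ℓ²`-Betti numbers of `M` in these degrees vanish;
(2) all `ℓ²`-Betti numbers of `M` vanish if and only if `χ(M) = 0`: the conclusion of Q1;
(3) `(-1)^(e+1) χ(M) ≥ 0`.

If `H` is of type `FP` then its `ℓ²`-Betti numbers are finite in all degrees, and both sides of (2) hold.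

`Chains`, `val`, `cl`, `proj`, `mulMat`, `cycles`, `boundaries`, `dim`, `IsComplex`, `betti`,
`supportedOver`, `FiniteBetti` and `AmenableAction` are defined in
`Pool.Agent.Results.MP_f80465_gt.CoamenableSubgroups`.
-/

set_option autoImplicit false

universe u

namespace Pool.Agent.Results.MP_394d50_gt.CoamenableSubgroups

open Pool.Agent.Results.MP_f80465_gt.CoamenableSubgroups (IsComplex betti FiniteBetti AmenableAction)

/-- Let `H` be a co-amenable subgroup of infinite index of `G`, and let `D` be the boundary maps of a
finite complex of finitely generated free `ℂG`-modules, with `ℓ²`-Betti numbers over `H` finite in all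
degrees of one parity. Then the `ℓ²`-Betti numbers over `G` of this parity vanish, all of them vanish if
and only if the Euler characteristic is zero, and the sign of the Euler characteristic is the one of the
other parity. -/
theorem result {G : Type u} [Group G] (H : Subgroup G) (hH : AmenableAction G (G ⧸ H))
    (hi : Infinite (G ⧸ H)) (c : ℕ → ℕ) (N : ℕ)
    (D : ∀ p, Matrix (Fin (c (p + 1))) (Fin (c p)) (G →₀ ℂ)) (hc : c 0 = 0)
    (hN : ∀ p, N < p → c p = 0) (hD : ∀ p, IsComplex (D (p + 1)) (D p)) (e : ℕ)
    (hβ : ∀ p, p % 2 = e % 2 → FiniteBetti H (D (p + 1)) (D p)) :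
    (∀ p, p % 2 = e % 2 → betti (D (p + 1)) (D p) = 0) ∧
    ((∀ p, betti (D (p + 1)) (D p) = 0) ↔
      ∑ p ∈ Finset.range N, (-1 : ℤ) ^ p * (c (p + 1) : ℤ) = 0) ∧
    0 ≤ (-1 : ℤ) ^ (e + 1) * ∑ p ∈ Finset.range N, (-1 : ℤ) ^ p * (c (p + 1) : ℤ) := by
  have h1 := (Pool.Agent.Results.MP_f80465_gt.CoamenableSubgroups.result H hH hi).1
  have h2 : ∀ p, p % 2 = e % 2 → betti (D (p + 1)) (D p) = 0 := fun p hp =>
    h1 _ _ _ _ _ (hD p) (hβ p hp)
  exact ⟨h2, Pool.Agent.X163.CO.parity c N D hc hN hD e h2⟩

end Pool.Agent.Results.MP_394d50_gt.CoamenableSubgroups
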