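import Pool.Agent.Y132.SI.Free
import Pool.Agent.TH652.Dual7
import Pool.Agent.W907.SM.All

/-!
# Davis manifolds of flag homology spheres in the class `AQ`: the Euler characteristic decides

Let `L` be the flag complex of the finite graph `G`, and suppose that it is a real homology manifold with
the real homology of the `(n-1)`-sphere (`HSph n G`, for example a flag triangulation of the
`(n-1)`-sphere) and belongs to the class `AQ n` (which contains the order complexes of the graded posets
of length `n` that are Gorenstein* over `F_2`, for example all barycentric subdivisions of triangulated
spheres, and is closed under full subcomplexes, joins, deleting and subdividing edges, gluing, adding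
vertices, and, in the even dimensions, under a local condition).

The quotients of the Davis complex of the right-angled Coxeter group `W G` by the torsion-free subgroups
`H` of finite index are closed aspherical (homology) `n`-manifolds with Euler characteristic
`[W G : H] chiW G`. We show the equivalence of

* all `ℓ²`-Betti numbers vanish,
* the Euler characteristic vanishes,
* the ordinary real Betti numbers, in all degrees, of the finite coverings grow sublinearly: for every
  `ε > 0` there is a finite set `E` of nontrivial elements of `W G` such that for every subgroup `H` of
  finite index which contains no conjugate of an element of `E` and all `i` the `i`-th real Betti number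
  of `H` (the dimension of the space of the `H`-invariant real harmonic `i`-chains) is at most
  `ε [W G : H]`.
-/

set_option autoImplicit false

namespace Pool.Agent.Results.MP_394d50_gt.HomologySpheres

open Pool.Agent.W907.SG Pool.Agent.W907.SM Pool.Agent.TH652.Above Pool.Agent.Y132.SI

/-- For the Davis manifolds of the flag homology `(n-1)`-spheres in the class `AQ n`: the vanishing of
all `ℓ²`-Betti numbers, the vanishing of the Euler characteristic, and the sublinear growth of all Betti
numbers of the finite coverings are equivalent. -/
theorem result : ∀ (n : ℕ) (V : Type) [Fintype V] [LinearOrder V] (G : SimpleGraph V),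
    HSph n G → AQ n G →
    ((∀ i : ℕ, L2Van G i) ↔ chiW G = 0) ∧
    (chiW G = 0 ↔ ∀ ε : ℝ, 0 < ε → ∃ E : Finset (W G), (1 : W G) ∉ E ∧
      ∀ H : Subgroup (W G), H.FiniteIndex → (∀ g ∈ E, ∀ x : W G, x * g * x⁻¹ ∉ H) →
        ∀ i : ℕ, (Module.finrank ℝ (HInv G H i) : ℝ) ≤ ε * H.index) := by
  intro n V _ _ G hS hA
  refine ⟨l2eul V G (n / 2) fun i hi => singer_AQ hS hA i (by omega),
    chi_iff G n fun i hi => singer_AQ hS hA i hi⟩

end Pool.Agent.Results.MP_394d50_gt.HomologySpheres
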