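import Pool.Agent.X250.Sph.Parity

/-!
# `ℓ²`-acyclicity and the Euler characteristic, with a Morse criterion in the degrees of one parity

Let `L` be the flag complex of the finite graph `G`, and suppose that `L` is a real homology manifold with the real
homology of the `(n-1)`-sphere, `n = 2 m` (for example a flag triangulated sphere).  The quotients of the Davis
complex `Σ` of the right-angled Coxeter group `W = W G` by the torsion-free subgroups `H` of finite index are closed
aspherical (homology) `n`-manifolds with Euler characteristic `[W : H] χ(W)`.

We show that Q1 holds for these manifolds (all `ℓ²`-Betti numbers vanish if and only if the Euler characteristic does)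
if for the degrees `i = m + 1, m + 3, ...` there are *slopes* (for example legal systems in the sense of
Jankiewicz-Norin-Wise) whose descending links have no reduced real homology in the degree `i - 1`; if the links of the
`k`-vertex faces are in the class `AM (2 j)`, `n = 2 j + k`, then only the degrees `i ≤ j + k` are needed, and for
`j ≤ 1` there is no condition on the links.  So for flag homology `5`-spheres (`n = 6`, `j = 1`) one needs only the
degree `i = 4`.  The Singer conjecture for `W` (the vanishing in all degrees `≠ m`) is not known under this hypothesis: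
nothing is assumed about the degrees `m + 2, m + 4, ...`.
-/

set_option autoImplicit false

namespace Pool.Agent.Results.MP_394d50_gt.ParityOfDegrees

open Module Pool.Agent.W907.SG Pool.Agent.W907.SM Pool.Agent.TH652.Above Pool.Agent.Y132.SI Pool.Agent.X250.Sph
open Pool.Agent.TH652.Dual (triv)

/-- Let `2 m = 2 j + k` with `1 ≤ k`, let the flag complex `L` of `G` be a real homology sphere of dimension
`2 m - 1`, and suppose that, if `2 ≤ j`, the links of the faces with `k` vertices are in the class `AM (2 j)`.
Suppose that for each `i` with `m < i ≤ j + k` and `i - m` odd there is a slope of `G` on a nonempty finite set `X`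
such that the `(i - 1)`-st reduced real homology of the full subcomplexes `L[down x]` vanishes for all `x` in `X`.
(1) The reduced `ℓ²`-homology of the Davis complex of `W G` vanishes in all degrees if and only if `χ(W G) = 0`.
(2) `(-1)^m χ(W G)` is not negative.
(3) For each `ε > 0` there is a finite set `E` of nontrivial elements of `W G` such that for every subgroup `H` of
finite index of `W G` which contains no conjugate of an element of `E`, the `i`-th real Betti number of `H` (the
dimension of the space of the `H`-invariant real harmonic `i`-chains of the Davis complex) is at most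
`((-1)^m χ(W G) + ε) [W G : H]` for all `i` with `i - m` even, and at most `ε [W G : H]` for the other `i`. -/
theorem result : ∀ (j k m : ℕ) (V : Type) [Fintype V] [LinearOrder V] (G : SimpleGraph V), 1 ≤ k →
    2 * j + k = 2 * m → HSph (2 * m) G →
    (2 ≤ j → ∀ T : Finset V, G.IsClique (T : Set V) → T.card = k → AM (2 * j) (G.induce (lk G T))) →
    (∀ i : ℕ, m < i → i ≤ j + k → Odd (i + m) →
      ∃ (X : Type) (_ : Fintype X) (_ : Nonempty X) (s : Slope G X),
        ∀ x, beta G (triv V) (s.down x) ∅ i = 0) →
    ((∀ i : ℕ, L2Van G i) ↔ chiW G = 0) ∧
    0 ≤ (-1 : ℚ) ^ m * chiW G ∧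
    ∀ ε : ℝ, 0 < ε → ∃ E : Finset (W G), (1 : W G) ∉ E ∧
      ∀ H : Subgroup (W G), H.FiniteIndex → (∀ g ∈ E, ∀ x : W G, x * g * x⁻¹ ∉ H) → ∀ i : ℕ,
        (finrank ℝ (HInv G H i) : ℝ) ≤
          ((if Even (i + m) then (-1 : ℝ) ^ m * (chiW G : ℝ) else 0) + ε) * H.index := by
  intro j k m V _ _ G hk hm hS hA hs
  obtain ⟨k, rfl⟩ := Nat.exists_eq_add_of_le' hk
  have hP : FaceP j (k + 1) G := FaceP.of (hSph_congr hm.symm hS) hA
  have h1 : ∀ i, Odd (i + m) → L2Van G i := fun i hi => hP.parity hm hS
    (fun i h1 h2 h3 => HasSlope.l2van (hs i h1 h3 h2)) i hi
  exact ⟨parity_iff h1, parity_sign h1, fun ε hε => parity_growth h1 ε hε⟩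

end Pool.Agent.Results.MP_394d50_gt.ParityOfDegrees
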