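import Pool.Agent.X250.Sph.Multi
import Pool.Agent.Y132.SI.Free

/-!
# Special subgroups and the Euler characteristic of Davis manifolds

Let `L` be the flag complex of the finite graph `G`, and suppose that it is a real homology manifold
with the real homology of the `(2 m - 1)`-sphere (`HSph (2 m) G`) and belongs to the class `AM (2 m)`
of the starting library, which contains the order complexes of the graded posets of length `2 m` that
are Gorenstein* over `F_2`, and is closed under full subcomplexes, stellar subdivision of edges, joins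
(the numbers add up), gluing along full subcomplexes of the class `2 m - 2`, and under passing from
the vertex links to the complex.  The quotients of the Davis complex of the right-angled Coxeter group
`W G` by the torsion-free subgroups `H` of finite index are closed aspherical (homology) manifolds of
dimension `2 m` with Euler characteristic `[W G : H] chiW G`.

`L2Van G i`: the `i`-th `ℓ²`-Betti number of `W G` is zero (there are no nonzero `ℓ²` harmonic
`i`-chains on the Davis complex).  For a set `A` of vertices the special subgroup `W_A` is the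
right-angled Coxeter group of the induced graph.  `HInv G H i` is the space of the `H`-invariant real
harmonic `i`-chains; its dimension is the `i`-th real Betti number of `H`.

The starting results show for these manifolds that all `ℓ²`-Betti numbers vanish if and only if the
Euler characteristic does.  Here both are related to the special subgroups.
-/

set_option autoImplicit false

namespace Pool.Agent.Results.MP_394d50_gt.SubgroupMonotonicity

open Pool.Agent.X250.Sph Pool.Agent.TH652.Above Pool.Agent.Y132.SI
open Pool.Agent.W907.SG (L2Van chiW W)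

variable {V : Type} [Fintype V] [LinearOrder V] {G : SimpleGraph V}

theorem compare {m : ℕ} (hS : HSph (2 * m) G) (hA : AM (2 * m) G) (A : Finset V)
    (hL : ∀ i, i < m → Even (i + m) → L2Van (G.induce (A : Set V)) i) :
    (-1 : ℚ) ^ m * chiW (G.induce (A : Set V)) ≤ (-1) ^ m * chiW G := by
  classical
  have h1 := mono_P (P_of_AM hA) (A := (A : Set V)) (B := Set.univ) (Set.subset_univ _)
    (fun i hi he => LV_of (hL i hi he))
    (fun i hi _ => (lv_univ G i).2 (LV_of (singer_of_above hS
      (fun j hj => above_AM hA j hj) i (by omega))))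
  rwa [chiW_univ] at h1

theorem growth_ge {m : ℕ} (hS : HSph (2 * m) G) (hA : AM (2 * m) G) {q : ℚ}
    (hq : q ≤ (-1) ^ m * chiW G) (ε : ℝ) (hε : 0 < ε) :
    ∃ E : Finset (W G), (1 : W G) ∉ E ∧ ∀ H : Subgroup (W G), H.FiniteIndex →
      (∀ g ∈ E, ∀ x : W G, x * g * x⁻¹ ∉ H) →
        ((q : ℝ) - ε) * H.index ≤ Module.finrank ℝ (HInv G H m) := by
  obtain ⟨E, h1, h2⟩ := growth_free G (2 * m) (fun i hi => singer_of_above hS
    (fun j hj => above_AM hA j hj) i hi) ε hε
  refine ⟨E, h1, fun H hH hE => ?_⟩
  have h3 := h2 H hH hE m
  rw [if_pos rfl, abs_le] at h3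
  have h4 : (q : ℝ) ≤ (-1) ^ m * (chiW G : ℝ) := by exact_mod_cast hq
  have h5 : (0 : ℝ) ≤ H.index := Nat.cast_nonneg _
  have h6 := mul_le_mul_of_nonneg_right h4 h5
  linarith [h3.1]

/-- Let the flag complex of `G` be a real homology `(2 m - 1)`-sphere of the class `AM (2 m)`.
(1) Let `A` be a set of vertices such that the `ℓ²`-Betti numbers of the special subgroup `W_A` vanish
in the degrees `i < m` of the parity of `m`.  Then `(-1)^m χ(W_A) ≤ (-1)^m χ(W G)`, and for every
`ε > 0` there is a finite set `E` of nontrivial elements of `W G` such that the `m`-th real Betti number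
of every subgroup `H` of finite index which contains no conjugate of an element of `E` is at least
`((-1)^m χ(W_A) - ε) [W G : H]`.
(2) If all `ℓ²`-Betti numbers of `W G` vanish (equivalently `χ(W G) = 0`), then all
`ℓ²`-Betti numbers vanish for every special subgroup `W_A` for which they vanish outside the degree
`m`.
(3) If `G` contains `m` independent sets `K k` with at least two elements which are completely joined
to each other, then `(-1)^m χ(W G)` is at least the product of the numbers `|K k| / 2 - 1`, and
correspondingly for the `m`-th Betti numbers of the subgroups `H`; in particular the Euler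
characteristics of the Davis manifolds are not zero if all `|K k| ≥ 3`. -/
theorem result (m : ℕ) {V : Type} [Fintype V] [LinearOrder V] (G : SimpleGraph V)
    (hS : HSph (2 * m) G) (hA : AM (2 * m) G) :
    (∀ A : Finset V, (∀ i, i < m → Even (i + m) → L2Van (G.induce (A : Set V)) i) →
      (-1 : ℚ) ^ m * chiW (G.induce (A : Set V)) ≤ (-1) ^ m * chiW G ∧
      ∀ ε : ℝ, 0 < ε → ∃ E : Finset (W G), (1 : W G) ∉ E ∧ ∀ H : Subgroup (W G), H.FiniteIndex →
        (∀ g ∈ E, ∀ x : W G, x * g * x⁻¹ ∉ H) →
          ((((-1) ^ m * chiW (G.induce (A : Set V)) : ℚ) : ℝ) - ε) * H.index ≤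
            Module.finrank ℝ (HInv G H m)) ∧
    ((∀ i, L2Van G i) → ∀ A : Finset V, (∀ i, i ≠ m → L2Van (G.induce (A : Set V)) i) →
      ∀ i, L2Van (G.induce (A : Set V)) i) ∧
    ∀ K : Fin m → Finset V, IsMultipartite G K →
      ∏ k, (((K k).card : ℚ) / 2 - 1) ≤ (-1) ^ m * chiW G ∧
      ((∀ k, 3 ≤ (K k).card) → chiW G ≠ 0) ∧
      ∀ ε : ℝ, 0 < ε → ∃ E : Finset (W G), (1 : W G) ∉ E ∧ ∀ H : Subgroup (W G), H.FiniteIndex →
        (∀ g ∈ E, ∀ x : W G, x * g * x⁻¹ ∉ H) →
          (((∏ k, (((K k).card : ℚ) / 2 - 1) : ℚ) : ℝ) - ε) * H.index ≤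
            Module.finrank ℝ (HInv G H m) := by
  classical
  refine ⟨fun A hL => ⟨compare hS hA A hL, growth_ge hS hA (compare hS hA A hL)⟩, ?_, ?_⟩
  · intro h0 A hL
    have h1 := compare hS hA A (fun i hi _ => hL i (by omega))
    have h2 : chiW G = 0 := (Pool.Agent.W907.SM.l2eul V G m (fun i _ => h0 i)).1 h0
    rw [h2, mul_zero] at h1
    have h3 := chi_sign (m := m) (G.induce (A : Set V)) hL
    have h4 : chiW (G.induce (A : Set V)) = 0 :=
      (mul_eq_zero.1 (le_antisymm h1 h3)).resolve_left (pow_ne_zero _ (by norm_num))
    exact (Pool.Agent.W907.SM.l2eul _ _ m hL).2 h4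
  · intro K hK
    have h1 := compare hS hA (Finset.univ.biUnion K) (fun i hi _ => hK.lv Finset.univ i (by
      rw [Finset.card_univ, Fintype.card_fin]
      exact hi) _ _)
    have h2 : (-1 : ℚ) ^ m * chiW (G.induce ((Finset.univ.biUnion K : Finset V) : Set V)) =
        ∏ k, (((K k).card : ℚ) / 2 - 1) := by
      rw [← lam_coe, hK.lam Finset.univ]
      have h4 : (-1 : ℚ) ^ m = ∏ _k : Fin m, (-1 : ℚ) := by simp
      rw [h4, ← Finset.prod_mul_distrib]
      refine Finset.prod_congr rfl fun k _ => ?_
      ring
    rw [h2] at h1
    refine ⟨h1, fun h3 h0 => ?_, growth_ge hS hA h1⟩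
    rw [h0, mul_zero] at h1
    have h4 : (0 : ℚ) < ∏ k, (((K k).card : ℚ) / 2 - 1) := by
      refine Finset.prod_pos fun k _ => ?_
      have : (3 : ℚ) ≤ (K k).card := by exact_mod_cast h3 k
      linarith
    linarith

end Pool.Agent.Results.MP_394d50_gt.SubgroupMonotonicity
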